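import Pool.Agent.N436.DF.Stm3

/-!
# Project DF, third batch, DH/6: `S3_killR`

The colouring of `X` is extended to the rest of `S`; the vertex `w` is forced to have the colour 2 and
the real edge `w t` is served in the colour 2 at both ends.
-/

set_option autoImplicit false

namespace Pool.Agent.N111.DF

open Finset Pool.Agent.N436.DF

variable {V : Type}

/-- one term of the demand -/
def dt (H : Hub V) (f : V → Bool) (s : V → V → ℤ) (i : Bool) (x z : V) : ℤ :=
  if f x = i then (if H.r x z ≤ s x z then H.r x z else (if i = true then 2 else 4))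
  else max 0 (H.m x z - s x z)

/-- the demand of `X` at `z` -/
def dem (H : Hub V) (X : Finset V) (f : V → Bool) (s : V → V → ℤ) (i : Bool) (z : V) : ℤ :=
  ∑ x ∈ X, dt H f s i x z

theorem r_nn {P : Par} {H : Hub V} (hO : Ok P H) (x z : V) : 0 ≤ H.r x z := by
  rcases hO.r01 x z with h | h <;> rw [h] <;> norm_num

theorem r_le {P : Par} {H : Hub V} (hO : Ok P H) (x z : V) : H.r x z ≤ 1 := by
  rcases hO.r01 x z with h | h <;> rw [h] <;> norm_num

theorem dt_nn {P : Par} {H : Hub V} (hO : Ok P H) (f : V → Bool) (s : V → V → ℤ) (i : Bool)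
    (x z : V) : 0 ≤ dt H f s i x z := by
  have := r_nn hO x z
  unfold dt
  split_ifs <;> first | positivity | assumption | norm_num

theorem dem_nn {P : Par} {H : Hub V} (hO : Ok P H) (X : Finset V) (f : V → Bool)
    (s : V → V → ℤ) (i : Bool) (z : V) : 0 ≤ dem H X f s i z :=
  sum_nonneg fun x _ => dt_nn hO f s i x z

theorem dt_le_dem {P : Par} {H : Hub V} (hO : Ok P H) {X : Finset V} (f : V → Bool)
    (s : V → V → ℤ) (i : Bool) {x : V} (hx : x ∈ X) (z : V) : dt H f s i x z ≤ dem H X f s i z :=
  single_le_sum (f := fun x => dt H f s i x z) (fun x _ => dt_nn hO f s i x z) hx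

/-- the demand and the savings at a pair -/
theorem dt_sv {P : Par} {H : Hub V} (hO : Ok P H) (f : V → Bool) {s : V → V → ℤ}
    (hs : ∀ x z, 0 ≤ s x z) (x z : V) :
    5 * dt H f s true x z + 3 * dt H f s false x z + sv H f s x z =
      12 * H.r x z + 5 * H.m x z := by
  have h0 := hs x z
  have hm := hO.m_nn x z
  have h1 : max 0 (H.m x z - s x z) + min (H.m x z) (s x z) = H.m x z := by
    rcases le_total (H.m x z) (s x z) with h | h
    · rw [min_eq_left h, max_eq_left (by omega)]; ring
    · rw [min_eq_right h, max_eq_right (by omega)]; ring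
  unfold dt sv
  rcases hO.r01 x z with hr | hr
  · rw [hr, if_pos h0, if_pos h0, if_pos h0]
    cases f x <;> simp <;> linarith
  · rw [hr]
    by_cases h : (1 : ℤ) ≤ s x z
    · rw [if_pos h, if_pos h, if_pos h]
      cases f x <;> simp <;> linarith
    · rw [if_neg h, if_neg h, if_neg h]
      cases f x <;> simp <;> linarith

variable [DecidableEq V]

theorem load_nn {P : Par} {H : Hub V} (hO : Ok P H) (S : Finset V) (f : V → Bool) {p : V → V → ℤ}
    (hp : ∀ u v, 0 ≤ p u v) (u : V) : 0 ≤ load H S f p u := by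
  unfold load
  refine sum_nonneg fun v _ => ?_
  split_ifs
  · exact r_nn hO u v
  · exact hp u v

theorem eE_mono {P : Par} {H : Hub V} (hO : Ok P H) {B S : Finset V} (h : B ⊆ S) :
    eE H B ≤ eE H S := by
  unfold eE
  refine (sum_le_sum_of_subset_of_nonneg h fun u _ _ => sum_nonneg fun v _ => r_nn hO u v).trans ?_
  exact sum_le_sum fun u _ => sum_le_sum_of_subset_of_nonneg h fun v _ _ => r_nn hO u v

/-- a colouring of the rest with the demand as reservation gives a colouring -/
theorem glue_dem (hg : S3_glue) {H : Hub V} {S X : Finset V} {f g : V → Bool}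
    {p q s : V → V → ℤ} (hO : Ok P13 H) (hX : X ⊆ S) (hc : ColBy H X f p)
    (hs : ∀ x z, 0 ≤ s x z)
    (hcap : ∀ x ∈ X, load H X f p x + ∑ z ∈ S \ X, s x z ≤ H.c (f x) x)
    (hq : ColBy H (S \ X) g q)
    (hl : ∀ z ∈ S \ X, load H (S \ X) g q z + dem H X f s (g z) z ≤ H.c (g z) z ∧
      0 ≤ load H (S \ X) g q z) : Col H S := by
  have key : ∀ x ∈ X, ∀ z ∈ S \ X, f x = g z → H.r x z ≤ s x z := by
    intro x hx z hz hfg
    by_contra hcon
    have h1 := dt_le_dem hO f s (g z) hx z
    have h2 := hl z hz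
    rw [dt, if_pos hfg, if_neg hcon] at h1
    have h3 := hO.c1_le z
    have h4 := hO.c2_le z
    have h5 : P13.j = 1 := rfl
    have h6 : P13.k = 3 := rfl
    rw [h5] at h3
    rw [h6] at h4
    cases hgz : g z
    · rw [hgz] at h1 h2
      rw [if_neg (by simp)] at h1
      omega
    · rw [hgz] at h1 h2
      rw [if_pos rfl] at h1
      omega
  obtain ⟨F, P', hF, -⟩ := hg V H S X f g p q s
    (fun z x => if g z = f x then H.r x z else max 0 (H.m x z - s x z)) hO hX hc hq hs
    (by
      intro z x
      split_ifs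
      · exact r_nn hO x z
      · exact le_max_left _ _)
    (by
      intro x hx z hz hfg
      refine ⟨key x hx z hz hfg, ?_⟩
      rw [if_pos hfg.symm])
    (by
      intro x hx z hz hfg
      rw [if_neg (Ne.symm hfg)]
      have := le_max_right 0 (H.m x z - s x z)
      linarith)
    hcap
    (by
      intro z hz
      have h1 := (hl z hz).1
      have h2 : ∑ x ∈ X, (if g z = f x then H.r x z else max 0 (H.m x z - s x z)) ≤
          dem H X f s (g z) z := by
        refine sum_le_sum fun x hx => ?_
        unfold dt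
        by_cases hfg : f x = g z
        · rw [if_pos hfg.symm, if_pos hfg, if_pos (key x hx z hz hfg)]
        · rw [if_neg (Ne.symm hfg), if_neg hfg]
      linarith)
  exact ⟨F, P', hF⟩

theorem killR3 (h1 : S_low) (h2 : S_delr) (h3 : S_trReal) (hb : S3_base) (hr : S3_res)
    (hg : S3_glue) : S3_killR := by
  intro V _ H S X f p s v w t hM hX hc hs hcap hv hw hrvw hfv hsvw ht hrwt
  have hO := hM.ok
  obtain ⟨hO1, hres, hcol⟩ := hr V H (dem H X f s) hO (fun i x => dem_nn hO X f s i x)
  obtain ⟨hO2, hrho2, -, -, -⟩ := h1 V P13 (res H (dem H X f s)) false w hO1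
  obtain ⟨hO3, hrho3, -, -, -⟩ := h1 V P13 (low (res H (dem H X f s)) false w) false t hO2
  obtain ⟨hO4, hrho4, heE, -, -⟩ := h2 V P13 (low (low (res H (dem H X f s)) false w) false t) w t
    hO3 hrwt
  -- not colourable
  have hnc : ¬ Col (delr (low (low (res H (dem H X f s)) false w) false t) w t) (S \ X) := by
    rintro ⟨g, q, hq⟩
    have hgw : g w = false := by
      by_contra hcon
      have hgw : g w = true := by simpa using hcon
      have e1 := hq.cap w hw
      have e2 := load_nn hO4 (S \ X) g hq.nn w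
      have e3 : (delr (low (low (res H (dem H X f s)) false w) false t) w t).c (g w) w =
          max (-1) (H.c true w - dem H X f s true w) := by
        rw [hgw]
        simp [delr, low, res]
      have e4 := dt_le_dem hO f s true hv w
      rw [dt, if_pos hfv, hrvw, hsvw, if_neg (by norm_num), if_pos rfl] at e4
      have e5 := hO.c1_le w
      have e6 : P13.j = 1 := rfl
      rw [e6] at e5
      rw [e3] at e1
      omega
    have hq1 := h3 V P13 (res H (dem H X f s)) (S \ X) false w t g q hO1 hw ht hrwt hgw hq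
    obtain ⟨hq2, hl⟩ := hcol (S \ X) g q hq1
    exact hM.ncol (glue_dem hg hO hX hc hs hcap hq2 hl)
  have hsub : S \ X ⊆ S := sdiff_subset
  have hcard : (S \ X).card < S.card := by
    refine card_lt_card ⟨hsub, fun h => ?_⟩
    exact (mem_sdiff.1 (h (hX hv))).2 hv
  have hnh : ¬ Hyp P13 (delr (low (low (res H (dem H X f s)) false w) false t) w t) (S \ X) := by
    intro h
    refine hnc (hM.ih2 _ _ hO4 h ?_ hcard)
    refine (heE (S \ X)).trans ?_
    exact eE_mono hO hsub
  unfold Hyp at hnh
  push Not at hnh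
  obtain ⟨C, hCS, hCne, hCr⟩ := hnh
  refine ⟨C, hCS, hCne, ?_⟩
  have hXC : Disjoint X C := by
    rw [Finset.disjoint_left]
    intro x hx hxC
    exact (mem_sdiff.1 (hCS hxC)).2 hx
  -- potentials
  have a1 := (hb V (res H (dem H X f s)) hO1).1 C
  have a2 := hrho2 C
  have a3 := hrho3 C
  have a4 := hrho4 C
  have a5 := hres C
  have a6 := (hb V H hO).2.1 X C hXC
  have k1 : kap P13 false = 3 := rfl
  have k2 : P13.b = 3 := rfl
  have k3 : P13.D = 12 := rfl
  rw [k1] at a2 a3
  rw [k2] at hCr
  rw [k3] at a4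
  have a7 : cost (dem H X f s) C + ∑ x ∈ X, ∑ z ∈ C, sv H f s x z =
      12 * rr H X C + 5 * mm H X C := by
    have b1 : cost (dem H X f s) C =
        ∑ x ∈ X, ∑ z ∈ C, (5 * dt H f s true x z + 3 * dt H f s false x z) := by
      unfold cost dem
      rw [sum_comm]
      refine sum_congr rfl fun z _ => ?_
      rw [mul_sum, mul_sum, ← sum_add_distrib]
    rw [b1, rr, mm, mul_sum, mul_sum, ← sum_add_distrib, ← sum_add_distrib]
    refine sum_congr rfl fun x _ => ?_
    rw [mul_sum, mul_sum, ← sum_add_distrib, ← sum_add_distrib]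
    exact sum_congr rfl fun z _ => dt_sv hO f hs x z
  have a8 : (if w ∈ C then (if t ∈ C then (6 : ℤ) else -3) else (if t ∈ C then -3 else 0)) +
      (if w ∈ C then (3 : ℤ) else 0) + (if t ∈ C then (3 : ℤ) else 0) =
        (if w ∈ C ∧ t ∈ C then (12 : ℤ) else 0) := by
    by_cases hwC : w ∈ C <;> by_cases htC : t ∈ C <;> simp [hwC, htC]
  have a9 : (if w ∈ C then (2 * 3 : ℤ) else 0) = 2 * (if w ∈ C then (3 : ℤ) else 0) := by
    split_ifs <;> norm_num
  have a10 : (if t ∈ C then (2 * 3 : ℤ) else 0) = 2 * (if t ∈ C then (3 : ℤ) else 0) := by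
    split_ifs <;> norm_num
  have a11 : (if w ∈ C ∧ t ∈ C then (2 * 12 : ℤ) else 0) =
      2 * (if w ∈ C ∧ t ∈ C then (12 : ℤ) else 0) := by
    split_ifs <;> norm_num
  rw [a9] at a2
  rw [a10] at a3
  rw [a11] at a4
  rw [a6]
  linarith

end Pool.Agent.N111.DF
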